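import Pool.Agent.J6H11.Fish.Rep

set_option autoImplicit false

namespace Pool.Agent.Results.MP_0ade3f_co.LrRlSymmetry

open Finset Equiv Pool.Agent.J6H11.Fish

/-- `π` (positions and values counted from `0`) has no indices `i, j, k` with `i + 1 = j < k` and
`π_i + 1 = π_k < π_j`. -/
def Avoids {n : ℕ} (π : Perm (Fin n)) : Prop :=
  ¬ ∃ i j k : Fin n, (i : ℕ) + 1 = j ∧ j < k ∧ (π i : ℕ) + 1 = π k ∧ π k < π j

open scoped Classical in
/-- The number of left-to-right maxima. -/
noncomputable def lrmax {n : ℕ} (π : Perm (Fin n)) : ℕ :=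
  (univ.filter fun i : Fin n => ∀ m < i, π m < π i).card

open scoped Classical in
/-- The number of right-to-left maxima. -/
noncomputable def rlmax {n : ℕ} (π : Perm (Fin n)) : ℕ :=
  (univ.filter fun i : Fin n => ∀ m, i < m → π m < π i).card

/-- `π ↦ π⁻¹ ∘ rev` -/
def conv (n : ℕ) : Perm (Fin n) ≃ Perm (Fin n) := (Equiv.inv _).trans (Equiv.mulRight Fin.revPerm)

theorem conv_apply {n : ℕ} (π : Perm (Fin n)) (x : Fin n) : conv n π x = π.symm (Fin.rev x) := rfl

theorem good_conv {n : ℕ} (π : Perm (Fin n)) : good (conv n π) ↔ Avoids π := by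
  constructor
  · rintro h ⟨i, j, k, hij, hjk, hik, hkj⟩
    have hpk := (π k).2
    have hpi := (π i).2
    have hpj := (π j).2
    have hjk' : (j : ℕ) < k := hjk
    have hkj' : (π k : ℕ) < π j := hkj
    apply h (Fin.rev (π k)) (Fin.rev (π j)) (Fin.rev (π i))
    · rw [Fin.val_rev, Fin.val_rev]; omega
    · rw [conv_apply, conv_apply, Fin.rev_rev, Fin.rev_rev, Equiv.symm_apply_apply,
        Equiv.symm_apply_apply]
      omega
    · rw [Fin.val_rev, Fin.val_rev]; omega
    · rw [conv_apply, conv_apply, Fin.rev_rev, Fin.rev_rev, Equiv.symm_apply_apply,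
        Equiv.symm_apply_apply]
      omega
  · rintro h x y z hxz hlt hyx hc
    apply h
    have hx := x.2
    have hy := y.2
    have hz := z.2
    refine ⟨conv n π z, conv n π y, conv n π x, hc.symm, ?_, ?_, ?_⟩
    · have hne : conv n π y ≠ conv n π x := by
        intro h'
        have := (conv n π).injective h'
        rw [this] at hyx
        exact lt_irrefl _ hyx
      rw [Fin.lt_def]
      have hne' : (conv n π y : ℕ) ≠ conv n π x := fun h' => hne (Fin.ext h')
      omega
    · rw [conv_apply, conv_apply, Equiv.apply_symm_apply, Equiv.apply_symm_apply, Fin.val_rev,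
        Fin.val_rev]
      omega
    · rw [conv_apply, conv_apply, Equiv.apply_symm_apply, Equiv.apply_symm_apply, Fin.lt_def, Fin.val_rev,
        Fin.val_rev]
      omega

theorem cntMin_conv {n : ℕ} (π : Perm (Fin n)) : cntMin (conv n π) n = lrmax π := by
  classical
  unfold cntMin lrmax
  apply Finset.card_bijective (conv n π) (conv n π).bijective
  intro x
  simp only [mem_filter, mem_univ, true_and]
  constructor
  · rintro ⟨_, h⟩ m hm
    obtain ⟨y, rfl⟩ := (conv n π).surjective m
    rw [conv_apply, conv_apply, Equiv.apply_symm_apply, Equiv.apply_symm_apply, Fin.rev_lt_rev]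
    by_contra hc
    rw [not_lt] at hc
    rcases eq_or_lt_of_le hc with h1 | h1
    · subst h1; exact lt_irrefl _ hm
    · have := h y h1
      rw [Fin.lt_def] at hm
      omega
  · intro h
    refine ⟨Fin.is_lt _, ?_⟩
    intro y hy
    by_contra hc
    rw [not_lt] at hc
    rcases eq_or_lt_of_le hc with h1 | h1
    · have := (conv n π).injective (Fin.ext h1)
      subst this; exact lt_irrefl _ hy
    · have := h (conv n π y) (Fin.lt_def.2 h1)
      rw [conv_apply, conv_apply, Equiv.apply_symm_apply, Equiv.apply_symm_apply, Fin.rev_lt_rev] at this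
      exact lt_asymm this hy

theorem cntMax_conv {n : ℕ} (π : Perm (Fin n)) : cntMax (conv n π) 0 = rlmax π := by
  classical
  unfold cntMax rlmax
  apply Finset.card_bijective (conv n π) (conv n π).bijective
  intro x
  simp only [mem_filter, mem_univ, true_and]
  constructor
  · rintro ⟨_, h⟩ m hm
    obtain ⟨y, rfl⟩ := (conv n π).surjective m
    rw [conv_apply, conv_apply, Equiv.apply_symm_apply, Equiv.apply_symm_apply, Fin.rev_lt_rev]
    by_contra hc
    rw [not_lt] at hc
    rcases eq_or_lt_of_le hc with h1 | h1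
    · subst h1; exact lt_irrefl _ hm
    · have := h y h1
      rw [Fin.lt_def] at hm
      omega
  · intro h
    refine ⟨Nat.zero_le _, ?_⟩
    intro y hy
    by_contra hc
    rw [not_lt] at hc
    rcases eq_or_lt_of_le hc with h1 | h1
    · have := (conv n π).injective (Fin.ext h1)
      subst this; exact lt_irrefl _ hy
    · have := h (conv n π y) (Fin.lt_def.2 h1)
      rw [conv_apply, conv_apply, Equiv.apply_symm_apply, Equiv.apply_symm_apply, Fin.rev_lt_rev] at this
      exact lt_asymm this hy

open Polynomial in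
open scoped Classical in
theorem count_symm (n a b : ℕ) :
    (univ.filter fun σ : Perm (Fin (n + 1)) => good σ ∧ cntMin σ (n + 1) = a ∧ cntMax σ 0 = b).card =
    (univ.filter fun σ : Perm (Fin (n + 1)) => good σ ∧ cntMin σ (n + 1) = b ∧ cntMax σ 0 = a).card := by
  have h := FF_symm (C X : ℤ[X][X]) (X : ℤ[X][X]) n
  unfold FF at h
  have key : ∀ c d : ℕ, ((C X : ℤ[X][X]) ^ c * (X : ℤ[X][X]) ^ d).coeff b = if d = b then X ^ c else 0 := by
    intro c d
    rw [← C_pow, coeff_C_mul, coeff_X_pow]
    by_cases hd : d = b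
    · subst hd; simp
    · rw [if_neg (fun h => hd h.symm), if_neg hd, mul_zero]
  have h1 := congrArg (fun f : ℤ[X][X] => (f.coeff b).coeff a) h
  simp only [TT, finsetSum_coeff] at h1
  have h2 : ∀ σ : Perm (Fin (n + 1)),
      ((if good σ then (C X : ℤ[X][X]) ^ cntMin σ (n + 1) * (X : ℤ[X][X]) ^ cntMax σ 0 else 0).coeff b).coeff a
        = if good σ ∧ cntMin σ (n + 1) = a ∧ cntMax σ 0 = b then 1 else 0 := by
    intro σ
    by_cases hg : good σ
    · rw [if_pos hg, key]
      by_cases hb : cntMax σ 0 = b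
      · rw [if_pos hb, coeff_X_pow]
        simp [hg, hb, eq_comm]
      · rw [if_neg hb]
        simp [hb]
    · simp [hg]
  have h3 : ∀ σ : Perm (Fin (n + 1)),
      ((if good σ then (X : ℤ[X][X]) ^ cntMin σ (n + 1) * (C X : ℤ[X][X]) ^ cntMax σ 0 else 0).coeff b).coeff a
        = if good σ ∧ cntMin σ (n + 1) = b ∧ cntMax σ 0 = a then 1 else 0 := by
    intro σ
    by_cases hg : good σ
    · rw [if_pos hg, mul_comm, key]
      by_cases hb : cntMin σ (n + 1) = b
      · rw [if_pos hb, coeff_X_pow]
        simp [hg, hb, eq_comm]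
      · rw [if_neg hb]
        simp [hb]
    · simp [hg]
  simp only [h2, h3, sum_boole] at h1
  exact_mod_cast h1

open scoped Classical in
/-- For every `n ≥ 1`, the statistics `lrmax` and `rlmax` have symmetric joint distribution on the
permutations of size `n` avoiding the pattern. -/
theorem result : ∀ n : ℕ, 1 ≤ n → ∀ a b : ℤ,
    (univ.filter fun π : Perm (Fin n) => Avoids π ∧ (lrmax π : ℤ) = a ∧ (rlmax π : ℤ) = b).card =
    (univ.filter fun π : Perm (Fin n) => Avoids π ∧ (lrmax π : ℤ) = b ∧ (rlmax π : ℤ) = a).card := by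
  intro n hn a b
  obtain ⟨n, rfl⟩ : ∃ m, n = m + 1 := ⟨n - 1, by omega⟩
  have hnat : ∀ a b : ℕ,
      (univ.filter fun π : Perm (Fin (n + 1)) => Avoids π ∧ lrmax π = a ∧ rlmax π = b).card =
      (univ.filter fun σ : Perm (Fin (n + 1)) =>
        good σ ∧ cntMin σ (n + 1) = a ∧ cntMax σ 0 = b).card := by
    intro a b
    apply Finset.card_bijective (conv (n + 1)) (conv (n + 1)).bijective
    intro π
    simp only [mem_filter, mem_univ, true_and]
    rw [good_conv, cntMin_conv, cntMax_conv]
  have hneg : ∀ a b : ℤ, a < 0 ∨ b < 0 →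
      (univ.filter fun π : Perm (Fin (n + 1)) =>
        Avoids π ∧ (lrmax π : ℤ) = a ∧ (rlmax π : ℤ) = b).card = 0 := by
    intro a b hab
    rw [card_eq_zero, filter_eq_empty_iff]
    rintro π _ ⟨_, h1, h2⟩
    omega
  rcases lt_or_ge a 0 with ha | ha
  · rw [hneg a b (Or.inl ha), hneg b a (Or.inr ha)]
  · rcases lt_or_ge b 0 with hb | hb
    · rw [hneg a b (Or.inr hb), hneg b a (Or.inl hb)]
    · obtain ⟨a, rfl⟩ := Int.eq_ofNat_of_zero_le ha
      obtain ⟨b, rfl⟩ := Int.eq_ofNat_of_zero_le hb
      simp only [Nat.cast_inj]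
      rw [hnat, hnat, count_symm]

end Pool.Agent.Results.MP_0ade3f_co.LrRlSymmetry
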